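import Mathlib
import Pool.Agent.H33.BDFP.DStmts
import Pool.Agent.H3.BDFP.PAIR1

attribute [local instance] Pool.Agent.H33.BDFP.NV.instNACG Pool.Agent.H33.BDFP.NV.instModule
  Pool.Agent.H33.BDFP.NV.instNormedSpace Pool.Agent.H33.BDFP.NV.instFD
  Pool.Agent.H33.BDFP.NV.instComplete

/-!
Module QD of the project BDFP (MP_c92038_an): limits of operators with finite spectrum are
quasidiagonal modulo compact operators.
-/

open scoped ENNReal NNReal Topology InnerProductSpace
open Filter

noncomputable section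

namespace Pool.Agent.H70.BDFP

open Pool.Agent.H33.BDFP

section

variable {H : Type} [NormedAddCommGroup H] [InnerProductSpace ℂ H] [CompleteSpace H]

/-- a compact operator is almost contained in a finite-dimensional subspace -/
lemma exists_cut_left (K : H →L[ℂ] H) (hK : IsCompactOperator (⇑K)) {ε : ℝ} (hε : 0 < ε) :
    ∃ F : Submodule ℂ H, FiniteDimensional ℂ F ∧ ∀ P : H →L[ℂ] H, IsStarProjection P →
      (∀ x ∈ F, P x = x) → ‖K - P * K‖ ≤ ε := by
  have h1 : IsCompact (closure (⇑K '' Metric.closedBall 0 1)) :=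
    IsCompactOperator.isCompact_closure_image_closedBall (f := K.toLinearMap) hK 1
  obtain ⟨t, ht, hcov⟩ := Metric.totallyBounded_iff.1 h1.totallyBounded ε hε
  have : Finite t := ht
  refine ⟨Submodule.span ℂ t, FiniteDimensional.span_of_finite ℂ ht, fun P hP hPF => ?_⟩
  refine ContinuousLinearMap.opNorm_le_of_unit_norm hε.le fun x hx => ?_
  have h2 : K x ∈ closure (⇑K '' Metric.closedBall 0 1) :=
    subset_closure ⟨x, by simp [hx], rfl⟩
  obtain ⟨y, hy, hxy⟩ := Set.mem_iUnion₂.1 (hcov h2)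
  have h3 : P y = y := hPF y (Submodule.subset_span hy)
  have h4 : (K - P * K) x = (1 - P) (K x - y) := by
    change K x - P (K x) = (K x - y) - P (K x - y)
    rw [map_sub, h3]
    abel
  rw [h4]
  have h5 : ‖(1 - P : H →L[ℂ] H)‖ ≤ 1 := IsStarProjection.norm_le _ hP.one_sub
  calc ‖(1 - P) (K x - y)‖ ≤ ‖(1 - P : H →L[ℂ] H)‖ * ‖K x - y‖ :=
        ContinuousLinearMap.le_opNorm _ _
    _ ≤ 1 * ‖K x - y‖ := mul_le_mul_of_nonneg_right h5 (norm_nonneg _)
    _ ≤ ε := by
        rw [one_mul, ← dist_eq_norm]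
        exact (Metric.mem_ball.1 hxy).le

lemma star_compact {K : H →L[ℂ] H} (hK : IsCompactOperator (⇑K)) :
    IsCompactOperator (⇑(star K)) := by
  have hJc : IsClosed {T : H →L[ℂ] H | IsCompactOperator (⇑T)} :=
    isClosed_setOfPred_isCompactOperator
  have hJmul : ∀ x ∈ {T : H →L[ℂ] H | IsCompactOperator (⇑T)}, ∀ y : H →L[ℂ] H,
      y * x ∈ {T : H →L[ℂ] H | IsCompactOperator (⇑T)} ∧
        x * y ∈ {T : H →L[ℂ] H | IsCompactOperator (⇑T)} := by
    intro x hx y
    exact ⟨IsCompactOperator.clm_comp (f := ⇑x) hx y, IsCompactOperator.comp_clm (f := ⇑x) hx y⟩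
  exact Pool.Agent.H3.BDFP.star_mem_of_closed _ hJc hJmul hK

lemma exists_cut (K : H →L[ℂ] H) (hK : IsCompactOperator (⇑K)) {ε : ℝ} (hε : 0 < ε) :
    ∃ F : Submodule ℂ H, FiniteDimensional ℂ F ∧ ∀ P : H →L[ℂ] H, IsStarProjection P →
      (∀ x ∈ F, P x = x) → ‖K - P * K‖ ≤ ε ∧ ‖K - K * P‖ ≤ ε := by
  obtain ⟨F1, hF1, h1⟩ := exists_cut_left K hK hε
  obtain ⟨F2, hF2, h2⟩ := exists_cut_left (star K) (star_compact hK) hε
  refine ⟨F1 ⊔ F2, inferInstance, fun P hP hPF => ⟨?_, ?_⟩⟩
  · exact h1 P hP fun x hx => hPF x (Submodule.mem_sup_left hx)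
  · have h3 := h2 P hP fun x hx => hPF x (Submodule.mem_sup_right hx)
    have h4 : K - K * P = star (star K - P * star K) := by
      rw [star_sub, star_mul, star_star, hP.isSelfAdjoint.star_eq]
    rw [h4, norm_star]
    exact h3

/-- the class of operators of the module QD -/
def Lim (T : H →L[ℂ] H) : Prop :=
  ∀ ε : ℝ, 0 < ε → ∃ (m : ℕ) (Q : Fin m → (H →L[ℂ] H)) (c : Fin m → ℂ)
    (K : H →L[ℂ] H), (∀ i, IsStarProjection (Q i)) ∧ (∀ i j, i ≠ j → Q i * Q j = 0) ∧
      ∑ i, Q i = 1 ∧ IsCompactOperator (⇑K) ∧ ‖T - (∑ i, c i • Q i) - K‖ ≤ ε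

lemma exists_proj {T : H →L[ℂ] H} (hT : Lim T) (F : Submodule ℂ H) [FiniteDimensional ℂ F]
    {ε : ℝ} (hε : 0 < ε) :
    ∃ P : H →L[ℂ] H, IsStarProjection P ∧ FiniteDimensional ℂ (LinearMap.range P.toLinearMap) ∧
      (∀ x ∈ F, P x = x) ∧ ‖P * T - T * P‖ ≤ ε := by
  obtain ⟨m, Q, c, K, hQ, hQQ, hsum, hK, hTK⟩ := hT (ε / 4) (by positivity)
  obtain ⟨F1, hF1, hcut⟩ := exists_cut K hK (ε := ε / 4) (by positivity)
  set F' : Submodule ℂ H := F ⊔ F1 with hF'
  set G : Submodule ℂ H := ⨆ i, F'.map (Q i).toLinearMap with hG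
  have hGf : FiniteDimensional ℂ G := Submodule.finiteDimensional_iSup _
  have : CompleteSpace G := FiniteDimensional.complete ℂ G
  have hF'G : ∀ x ∈ F', x ∈ G := by
    intro x hx
    have h1 : x = ∑ i, Q i x := by
      have := congrArg (fun A : H →L[ℂ] H => A x) hsum
      simp only [sum_apply, one_apply_eq_self] at this
      exact this.symm
    rw [h1]
    refine Submodule.sum_mem _ fun i _ => ?_
    exact Submodule.mem_iSup_of_mem i ⟨x, hx, rfl⟩
  have hQG : ∀ j, ∀ x ∈ G, Q j x ∈ G := by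
    intro j x hx
    have h1 : G ≤ G.comap (Q j).toLinearMap := by
      rw [hG]
      refine iSup_le fun i => ?_
      rintro _ ⟨y, hy, rfl⟩
      change Q j (Q i y) ∈ ⨆ i, F'.map (Q i).toLinearMap
      by_cases hij : j = i
      · subst hij
        have h2 : Q j (Q j y) = Q j y :=
          congrArg (fun A : H →L[ℂ] H => A y) (hQ j).isIdempotentElem
        rw [h2]
        exact Submodule.mem_iSup_of_mem j ⟨y, hy, rfl⟩
      · have h2 : Q j (Q i y) = 0 := congrArg (fun A : H →L[ℂ] H => A y) (hQQ j i hij)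
        rw [h2]
        exact Submodule.zero_mem _
    exact h1 hx
  set P : H →L[ℂ] H := G.starProjection with hPdef
  have hP : IsStarProjection P := isStarProjection_starProjection
  have hPs : star P = P := hP.isSelfAdjoint.star_eq
  have hPQ : ∀ j, P * Q j = Q j * P := by
    intro j
    have h1 : P * (Q j * P) = Q j * P := by
      refine ContinuousLinearMap.ext fun x => ?_
      change G.starProjection (Q j (G.starProjection x)) = Q j (G.starProjection x)
      rw [Submodule.starProjection_eq_self_iff]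
      exact hQG j _ (G.starProjection_apply_mem x)
    have h2 := congrArg star h1
    rw [star_mul, star_mul, hPs, (hQ j).isSelfAdjoint.star_eq] at h2
    rw [← h2, mul_assoc, h1]
  have hPF' : ∀ x ∈ F', P x = x := by
    intro x hx
    exact Submodule.starProjection_eq_self_iff.2 (hF'G x hx)
  have hPn : ‖P‖ ≤ 1 := IsStarProjection.norm_le _ hP
  obtain ⟨hc1, hc2⟩ := hcut P hP fun x hx => hPF' x (Submodule.mem_sup_right hx)
  refine ⟨P, hP, ?_, fun x hx => hPF' x (Submodule.mem_sup_left hx), ?_⟩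
  · have h1 : LinearMap.range P.toLinearMap = G := Submodule.range_starProjection G
    rw [h1]
    exact hGf
  · set N : H →L[ℂ] H := ∑ i, c i • Q i with hN
    have hPN : P * N = N * P := by
      rw [hN, Finset.mul_sum, Finset.sum_mul]
      refine Finset.sum_congr rfl fun i _ => ?_
      rw [mul_smul_comm, smul_mul_assoc, hPQ]
    have e1 : P * T - T * P = P * (T - N - K) - (T - N - K) * P + ((K - K * P) - (K - P * K)) +
        (P * N - N * P) := by
      noncomm_ring
    rw [e1, hPN, sub_self, add_zero]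
    have h1 : ‖P * (T - N - K)‖ ≤ ε / 4 :=
      (norm_mul_le _ _).trans ((mul_le_of_le_one_left (norm_nonneg _) hPn).trans hTK)
    have h2 : ‖(T - N - K) * P‖ ≤ ε / 4 :=
      (norm_mul_le _ _).trans ((mul_le_of_le_one_right (norm_nonneg _) hPn).trans hTK)
    calc ‖P * (T - N - K) - (T - N - K) * P + ((K - K * P) - (K - P * K))‖
        ≤ ‖P * (T - N - K) - (T - N - K) * P‖ + ‖(K - K * P) - (K - P * K)‖ := norm_add_le _ _
      _ ≤ (‖P * (T - N - K)‖ + ‖(T - N - K) * P‖) + (‖K - K * P‖ + ‖K - P * K‖) :=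
          add_le_add (norm_sub_le _ _) (norm_sub_le _ _)
      _ ≤ ε := by linarith

lemma exists_seq {T : H →L[ℂ] H} (hT : Lim T) (hinf : ¬ FiniteDimensional ℂ H) (b : ℕ → H) :
    ∃ P : ℕ → (H →L[ℂ] H), P 0 = 0 ∧ (∀ n, IsStarProjection (P n)) ∧
      (∀ n, FiniteDimensional ℂ (LinearMap.range (P n).toLinearMap)) ∧
      (∀ n, P (n + 1) * P n = P n) ∧ (∀ n, P (n + 1) (b n) = b n) ∧
      (∀ n, P (n + 1) ≠ P n) ∧ ∀ n, ‖P (n + 1) * T - T * P (n + 1)‖ ≤ (1 / 2 : ℝ) ^ n := by
  have step : ∀ (n : ℕ) (P : {P : H →L[ℂ] H // IsStarProjection P ∧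
      FiniteDimensional ℂ (LinearMap.range P.toLinearMap)}),
      ∃ P' : {P : H →L[ℂ] H // IsStarProjection P ∧
        FiniteDimensional ℂ (LinearMap.range P.toLinearMap)},
        P'.1 * P.1 = P.1 ∧ P'.1 (b n) = b n ∧ P'.1 ≠ P.1 ∧
          ‖P'.1 * T - T * P'.1‖ ≤ (1 / 2 : ℝ) ^ n := by
    rintro n ⟨P, hP, hPf⟩
    have hv : ∃ v, P v ≠ v := by
      by_contra hcon
      push Not at hcon
      apply hinf
      have h1 : LinearMap.range P.toLinearMap = ⊤ := by
        rw [LinearMap.range_eq_top]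
        intro x
        exact ⟨x, hcon x⟩
      rw [h1] at hPf
      exact Module.Finite.equiv (Submodule.topEquiv (R := ℂ) (M := H))
    obtain ⟨v, hv⟩ := hv
    have hfin : FiniteDimensional ℂ (Submodule.span ℂ ({b n, v} : Set H)) :=
      FiniteDimensional.span_of_finite ℂ (by simp)
    obtain ⟨P', hP', hP'f, hP'F, hP'T⟩ := exists_proj hT
      (LinearMap.range P.toLinearMap ⊔ Submodule.span ℂ ({b n, v} : Set H))
      (ε := (1 / 2 : ℝ) ^ n) (by positivity)
    refine ⟨⟨P', hP', hP'f⟩, ?_, ?_, ?_, hP'T⟩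
    · refine ContinuousLinearMap.ext fun x => ?_
      exact hP'F _ (Submodule.mem_sup_left ⟨x, rfl⟩)
    · exact hP'F _ (Submodule.mem_sup_right (Submodule.subset_span (by simp)))
    · intro h
      apply hv
      have h1 : P' v = v := hP'F _ (Submodule.mem_sup_right (Submodule.subset_span (by simp)))
      have h2 : P' = P := h
      rw [← h2]
      exact h1
  choose next hnext using step
  have h0 : IsStarProjection (0 : H →L[ℂ] H) ∧
      FiniteDimensional ℂ (LinearMap.range (0 : H →L[ℂ] H).toLinearMap) := by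
    refine ⟨IsStarProjection.zero _, ?_⟩
    have h1 : LinearMap.range (0 : H →L[ℂ] H).toLinearMap = ⊥ := by
      rw [ContinuousLinearMap.toLinearMap_zero, LinearMap.range_zero]
    rw [h1]
    infer_instance
  let S : ℕ → {P : H →L[ℂ] H // IsStarProjection P ∧
      FiniteDimensional ℂ (LinearMap.range P.toLinearMap)} :=
    fun n => Nat.rec ⟨0, h0⟩ (fun n P => next n P) n
  refine ⟨fun n => (S n).1, rfl, fun n => (S n).2.1, fun n => (S n).2.2, fun n => ?_, fun n => ?_,
    fun n => ?_, fun n => ?_⟩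
  · exact (hnext n (S n)).1
  · exact (hnext n (S n)).2.1
  · exact (hnext n (S n)).2.2.1
  · exact (hnext n (S n)).2.2.2

/-- projections of the sequence: the smaller one absorbs -/
lemma seq_mul {P : ℕ → (H →L[ℂ] H)} (hP : ∀ n, IsStarProjection (P n))
    (hPP : ∀ n, P (n + 1) * P n = P n) {m n : ℕ} (hmn : m ≤ n) :
    P n * P m = P m ∧ P m * P n = P m := by
  have h1 : P n * P m = P m := by
    induction n, hmn using Nat.le_induction with
    | base => exact (hP m).isIdempotentElem
    | succ n hn ih =>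
      calc P (n + 1) * P m = P (n + 1) * (P n * P m) := by rw [ih]
        _ = (P (n + 1) * P n) * P m := by rw [mul_assoc]
        _ = P m := by rw [hPP, ih]
  refine ⟨h1, ?_⟩
  have h2 := congrArg star h1
  rwa [star_mul, (hP m).isSelfAdjoint.star_eq, (hP n).isSelfAdjoint.star_eq] at h2

/-- the compact perturbation -/
lemma exists_pert {T : H →L[ℂ] H} {P : ℕ → (H →L[ℂ] H)} (hP0 : P 0 = 0)
    (hP : ∀ n, IsStarProjection (P n))
    (hfin : ∀ n, FiniteDimensional ℂ (LinearMap.range (P n).toLinearMap))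
    (hPP : ∀ n, P (n + 1) * P n = P n)
    (hT : ∀ n, ‖P (n + 1) * T - T * P (n + 1)‖ ≤ (1 / 2 : ℝ) ^ n) :
    ∃ T' : H →L[ℂ] H, IsCompactOperator (⇑(T - T')) ∧
      ∀ m, (P (m + 1) - P m) * T' = (P (m + 1) - P m) * T * (P (m + 1) - P m) := by
  set E : ℕ → (H →L[ℂ] H) := fun n => P (n + 1) - P n with hE
  have hcP : ∀ n, IsCompactOperator (⇑(P n)) := by
    intro n
    have := hfin n
    have : ProperSpace (LinearMap.range (P n).toLinearMap) := FiniteDimensional.proper ℂ _
    have h1 : P n = (LinearMap.range (P n).toLinearMap).subtypeL ∘L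
        ((P n).codRestrict (LinearMap.range (P n).toLinearMap) (fun x => ⟨x, rfl⟩)) := by
      refine ContinuousLinearMap.ext fun x => rfl
    have h2 : IsCompactOperator (⇑((P n).codRestrict (LinearMap.range (P n).toLinearMap)
      (fun x => ⟨x, rfl⟩))) := isCompactOperator_of_locallyCompactSpace_dom _
    rw [h1]
    exact h2.clm_comp (LinearMap.range (P n).toLinearMap).subtypeL
  have hcE : ∀ n, IsCompactOperator (⇑(E n)) := fun n => (hcP (n + 1)).sub (hcP n)
  have hEstar : ∀ n, IsStarProjection (E n) := by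
    intro n
    have h1 := (seq_mul hP hPP (Nat.le_succ n))
    refine ⟨?_, (hP (n + 1)).isSelfAdjoint.sub (hP n).isSelfAdjoint⟩
    change (P (n + 1) - P n) * (P (n + 1) - P n) = P (n + 1) - P n
    rw [sub_mul, mul_sub, mul_sub, (hP (n + 1)).isIdempotentElem, h1.1, h1.2,
      (hP n).isIdempotentElem, sub_self, sub_zero]
  have hEn : ∀ n, ‖E n‖ ≤ 1 := fun n => IsStarProjection.norm_le _ (hEstar n)
  have h1P : ∀ n, ‖1 - P n‖ ≤ 1 := fun n => IsStarProjection.norm_le _ (hP n).one_sub
  have hEP : ∀ n m, n + 1 ≤ m → E n * P m = E n ∧ P m * E n = E n := by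
    intro n m hnm
    have h1 := seq_mul hP hPP hnm
    have h2 := seq_mul hP hPP ((Nat.le_succ n).trans hnm)
    constructor
    · change (P (n + 1) - P n) * P m = P (n + 1) - P n
      rw [sub_mul, h1.2, h2.2]
    · change P m * (P (n + 1) - P n) = P (n + 1) - P n
      rw [mul_sub, h1.1, h2.1]
  have hEP' : ∀ n m, m ≤ n → E n * P m = 0 := by
    intro n m hnm
    have h1 := seq_mul hP hPP (hnm.trans (Nat.le_succ n))
    have h2 := seq_mul hP hPP hnm
    change (P (n + 1) - P n) * P m = 0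
    rw [sub_mul, h1.1, h2.1, sub_self]
  set A : ℕ → (H →L[ℂ] H) := fun n => E n * T * (1 - P (n + 1)) + (1 - P (n + 1)) * T * E n
    with hA
  have hAn : ∀ n, ‖A n‖ ≤ 2 * (1 / 2 : ℝ) ^ n := by
    intro n
    have h1 := (hEP n (n + 1) le_rfl)
    have e1 : E n * T * (1 - P (n + 1)) =
        E n * ((P (n + 1) * T - T * P (n + 1)) * (1 - P (n + 1))) := by
      have h2 : E n * ((P (n + 1) * T - T * P (n + 1)) * (1 - P (n + 1))) =
        (E n * P (n + 1)) * T * (1 - P (n + 1)) -
          E n * T * (P (n + 1) * (1 - P (n + 1))) := by noncomm_ring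
      rw [h2, h1.1, (hP (n + 1)).mul_one_sub_self, mul_zero, sub_zero]
    have e2 : (1 - P (n + 1)) * T * E n =
        ((1 - P (n + 1)) * (-(P (n + 1) * T - T * P (n + 1)))) * E n := by
      have h2 : ((1 - P (n + 1)) * (-(P (n + 1) * T - T * P (n + 1)))) * E n =
        (1 - P (n + 1)) * T * (P (n + 1) * E n) -
          ((1 - P (n + 1)) * P (n + 1)) * T * E n := by noncomm_ring
      rw [h2, h1.2, (hP (n + 1)).one_sub_mul_self, zero_mul, zero_mul, sub_zero]
    have h3 : ‖E n * T * (1 - P (n + 1))‖ ≤ (1 / 2 : ℝ) ^ n := by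
      rw [e1]
      refine (norm_mul_le _ _).trans ((mul_le_of_le_one_left (norm_nonneg _) (hEn n)).trans ?_)
      exact (norm_mul_le _ _).trans
        ((mul_le_of_le_one_right (norm_nonneg _) (h1P (n + 1))).trans (hT n))
    have h4 : ‖(1 - P (n + 1)) * T * E n‖ ≤ (1 / 2 : ℝ) ^ n := by
      rw [e2]
      refine (norm_mul_le _ _).trans ((mul_le_of_le_one_right (norm_nonneg _) (hEn n)).trans ?_)
      refine (norm_mul_le _ _).trans ((mul_le_of_le_one_left (norm_nonneg _) (h1P (n + 1))).trans ?_)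
      rw [norm_neg]
      exact hT n
    calc ‖A n‖ ≤ ‖E n * T * (1 - P (n + 1))‖ + ‖(1 - P (n + 1)) * T * E n‖ := norm_add_le _ _
      _ ≤ 2 * (1 / 2 : ℝ) ^ n := by linarith
  have hAs : Summable A := by
    refine Summable.of_norm_bounded (g := fun n => 2 * (1 / 2 : ℝ) ^ n) ?_ hAn
    exact (summable_geometric_of_lt_one (by norm_num) (by norm_num)).mul_left 2
  have hAc : ∀ n, IsCompactOperator (⇑(A n)) := by
    intro n
    have h1 : IsCompactOperator (⇑(E n * (T * (1 - P (n + 1))))) :=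
      IsCompactOperator.comp_clm (f := ⇑(E n)) (hcE n) (T * (1 - P (n + 1)))
    have h2 : IsCompactOperator (⇑(((1 - P (n + 1)) * T) * E n)) := by
      have h4 := IsCompactOperator.clm_comp (f := ⇑(E n)) (hcE n) ((1 - P (n + 1)) * T)
      have h5 : ⇑(((1 - P (n + 1)) * T) * E n) = ⇑((1 - P (n + 1)) * T) ∘ ⇑(E n) := by
        funext x
        rfl
      rw [h5]
      exact h4
    have h3 : A n = E n * (T * (1 - P (n + 1))) + ((1 - P (n + 1)) * T) * E n := by
      simp only [hA, mul_assoc]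
    rw [h3]
    exact h1.add h2
  have hS := hAs.hasSum
  refine ⟨T - ∑' n, A n, ?_, fun m => ?_⟩
  · rw [sub_sub_cancel]
    refine isCompactOperator_of_tendsto hS (Eventually.of_forall fun s => ?_)
    induction s using Finset.induction_on with
    | empty => rw [Finset.sum_empty]; exact isCompactOperator_zero
    | insert a s ha ih => rw [Finset.sum_insert ha]; exact (hAc a).add ih
  · change E m * _ = E m * T * E m
    have h1 := hS.mul_left (E m)
    have h2 : ∀ n ∉ Finset.range (m + 1), E m * A n = 0 := by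
      intro n hn
      have hn' : m + 1 ≤ n := by simpa using hn
      have e1 : E m * E n = 0 := by
        change E m * (P (n + 1) - P n) = 0
        rw [mul_sub, (hEP m (n + 1) (by omega)).1, (hEP m n hn').1, sub_self]
      have e2 : E m * (1 - P (n + 1)) = 0 := by
        rw [mul_sub, mul_one, (hEP m (n + 1) (by omega)).1, sub_self]
      calc E m * A n = (E m * E n) * T * (1 - P (n + 1)) + (E m * (1 - P (n + 1))) * T * E n := by
            simp only [hA]; noncomm_ring
        _ = 0 := by rw [e1, e2]; simp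
    have h3 := hasSum_sum_of_ne_finset_zero (L := SummationFilter.unconditional ℕ) h2
    have h4 := h1.unique h3
    have h5 : ∀ n ∈ Finset.range m, E m * A n = E m * T * (P (n + 1) - P n) := by
      intro n hn
      have hn' : n + 1 ≤ m := by simpa using hn
      have e1 : E m * E n = 0 := by
        change E m * (P (n + 1) - P n) = 0
        rw [mul_sub, hEP' m (n + 1) hn', hEP' m n (by omega), sub_self]
      have e2 : E m * (1 - P (n + 1)) = E m := by
        rw [mul_sub, mul_one, hEP' m (n + 1) hn', sub_zero]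
      calc E m * A n = (E m * E n) * T * (1 - P (n + 1)) + (E m * (1 - P (n + 1))) * T * E n := by
            simp only [hA]; noncomm_ring
        _ = E m * T * (P (n + 1) - P n) := by rw [e1, e2]; simp [hE]
    have h6 : E m * A m = E m * T * (1 - P (m + 1)) := by
      have e1 : E m * E m = E m := (hEstar m).isIdempotentElem
      have e2 : E m * (1 - P (m + 1)) = 0 := by
        rw [mul_sub, mul_one, (hEP m (m + 1) le_rfl).1, sub_self]
      calc E m * A m = (E m * E m) * T * (1 - P (m + 1)) + (E m * (1 - P (m + 1))) * T * E m := by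
            simp only [hA]; noncomm_ring
        _ = E m * T * (1 - P (m + 1)) := by rw [e1, e2]; simp
    rw [Finset.sum_range_succ, Finset.sum_congr rfl h5, ← Finset.mul_sum, Finset.sum_range_sub,
      hP0, sub_zero, h6] at h4
    rw [mul_sub, h4]
    simp only [hE]
    noncomm_ring

/-- the decomposition of the space -/
lemma exists_decomp {P : ℕ → (H →L[ℂ] H)} (b : HilbertBasis ℕ ℂ H) (hP0 : P 0 = 0)
    (hP : ∀ n, IsStarProjection (P n))
    (hfin : ∀ n, FiniteDimensional ℂ (LinearMap.range (P n).toLinearMap))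
    (hPP : ∀ n, P (n + 1) * P n = P n) (hPb : ∀ n, P (n + 1) (b n) = b n)
    (hne : ∀ n, P (n + 1) ≠ P n) :
    ∃ (d : ℕ → ℕ) (V : ∀ n, Eu (d n + 1) →ₗᵢ[ℂ] H) (Φ : H ≃ₗᵢ[ℂ] ZP (fun n => d n + 1) 2),
      (∀ n x, V n (Φ x n) = (P (n + 1) - P n) x) ∧
      ∀ n y, V n (ContinuousLinearMap.adjoint (V n).toContinuousLinearMap y) =
        (P (n + 1) - P n) y := by
  set E : ℕ → (H →L[ℂ] H) := fun n => P (n + 1) - P n with hE
  have hEstar : ∀ n, IsStarProjection (E n) := by
    intro n
    have h1 := (seq_mul hP hPP (Nat.le_succ n))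
    refine ⟨?_, (hP (n + 1)).isSelfAdjoint.sub (hP n).isSelfAdjoint⟩
    change (P (n + 1) - P n) * (P (n + 1) - P n) = P (n + 1) - P n
    rw [sub_mul, mul_sub, mul_sub, (hP (n + 1)).isIdempotentElem, h1.1, h1.2,
      (hP n).isIdempotentElem, sub_self, sub_zero]
  have hEE : ∀ n x, E n (E n x) = E n x := fun n x =>
    congrArg (fun A : H →L[ℂ] H => A x) (hEstar n).isIdempotentElem
  have hEadj : ∀ n x y, ⟪E n x, y⟫_ℂ = ⟪x, E n y⟫_ℂ := by
    intro n x y
    have h1 : ContinuousLinearMap.adjoint (E n) = E n := (hEstar n).isSelfAdjoint.star_eq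
    rw [← ContinuousLinearMap.adjoint_inner_right, h1]
  set L : ℕ → Submodule ℂ H := fun n => LinearMap.range (E n).toLinearMap with hL
  have hLf : ∀ n, FiniteDimensional ℂ (L n) := by
    intro n
    have := hfin (n + 1)
    have h1 : L n ≤ LinearMap.range (P (n + 1)).toLinearMap := by
      rintro _ ⟨x, rfl⟩
      refine ⟨E n x, ?_⟩
      have h2 : P (n + 1) * E n = E n := by
        change P (n + 1) * (P (n + 1) - P n) = P (n + 1) - P n
        rw [mul_sub, (hP (n + 1)).isIdempotentElem, hPP]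
      exact congrArg (fun A : H →L[ℂ] H => A x) h2
    exact Submodule.finiteDimensional_of_le h1
  have hpos : ∀ n, Module.finrank ℂ (L n) = Module.finrank ℂ (L n) - 1 + 1 := by
    intro n
    have h1 : 0 < Module.finrank ℂ (L n) := by
      rw [Nat.pos_iff_ne_zero]
      intro h2
      have h3 : L n = ⊥ := Submodule.finrank_eq_zero.1 h2
      apply hne n
      refine sub_eq_zero.1 (ContinuousLinearMap.ext fun x => ?_)
      have h4 : E n x ∈ L n := ⟨x, rfl⟩
      rw [h3] at h4
      exact h4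
    omega
  set d : ℕ → ℕ := fun n => Module.finrank ℂ (L n) - 1 with hd
  let bas : ∀ n, OrthonormalBasis (Fin (d n + 1)) ℂ (L n) := fun n =>
    (stdOrthonormalBasis ℂ (L n)).reindex (finCongr (hpos n))
  let V : ∀ n, Eu (d n + 1) →ₗᵢ[ℂ] H := fun n =>
    (L n).subtypeₗᵢ.comp (bas n).repr.symm.toLinearIsometry
  have hVmem : ∀ n w, V n w ∈ L n := fun n w => ((bas n).repr.symm w).2
  have hVE : ∀ n w, E n (V n w) = V n w := by
    intro n w
    obtain ⟨x, hx⟩ := hVmem n w
    have h1 : E n x = V n w := hx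
    rw [← h1, hEE]
  have hVsurj : ∀ n, ∀ z ∈ L n, ∃ w, V n w = z := by
    intro n z hz
    refine ⟨(bas n).repr ⟨z, hz⟩, ?_⟩
    change (((bas n).repr.symm ((bas n).repr ⟨z, hz⟩) : L n) : H) = z
    rw [LinearIsometryEquiv.symm_apply_apply]
  have hVE' : ∀ n x, ∃ w, V n w = E n x := fun n x => hVsurj n _ ⟨x, rfl⟩
  have hEEo : ∀ m n, m < n → ∀ x, E m (E n x) = 0 := by
    intro m n hmn x
    have h1 : E m * E n = 0 := by
      change (P (m + 1) - P m) * (P (n + 1) - P n) = 0
      rw [sub_mul, mul_sub, mul_sub, (seq_mul hP hPP (by omega : m + 1 ≤ n + 1)).2,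
        (seq_mul hP hPP (by omega : m + 1 ≤ n)).2, (seq_mul hP hPP (by omega : m ≤ n + 1)).2,
        (seq_mul hP hPP (by omega : m ≤ n)).2]
      abel
    exact congrArg (fun A : H →L[ℂ] H => A x) h1
  have hort0 : ∀ m n, m < n → ∀ v w, ⟪V m v, V n w⟫_ℂ = 0 := by
    intro m n hmn v w
    rw [← hVE m v, hEadj, ← hVE n w, hEEo m n hmn, inner_zero_right]
  have hort : OrthogonalFamily ℂ (fun n => Eu (d n + 1)) V := by
    intro m n hmn v w
    rcases lt_or_gt_of_ne hmn with h | h
    · exact hort0 m n h v w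
    · rw [← inner_conj_symm, hort0 n m h w v, map_zero]
  have hLsup : ∀ n x, P n x ∈ ⨆ i, LinearMap.range (V i).toLinearMap := by
    intro n x
    induction n with
    | zero => rw [hP0]; exact Submodule.zero_mem _
    | succ n ih =>
      have h1 : P (n + 1) x = P n x + E n x := by
        change P (n + 1) x = P n x + (P (n + 1) x - P n x)
        abel
      rw [h1]
      refine Submodule.add_mem _ ih ?_
      obtain ⟨w, hw⟩ := hVE' n x
      exact Submodule.mem_iSup_of_mem n ⟨w, hw⟩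
  have htot : ⊤ ≤ (⨆ i, LinearMap.range (V i).toLinearMap).topologicalClosure := by
    have h1 : Submodule.span ℂ (Set.range b) ≤ ⨆ i, LinearMap.range (V i).toLinearMap := by
      rw [Submodule.span_le]
      rintro _ ⟨n, rfl⟩
      have h2 := hLsup (n + 1) (b n)
      rw [hPb] at h2
      exact h2
    have h2 := Submodule.topologicalClosure_mono h1
    rw [b.dense_span] at h2
    exact h2
  have hsum : IsHilbertSum ℂ (fun n => Eu (d n + 1)) V := IsHilbertSum.mk hort htot
  let Φ : H ≃ₗᵢ[ℂ] ZP (fun n => d n + 1) 2 := hsum.linearIsometryEquiv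
  have hsep : ∀ n z1 z2, z1 ∈ L n → z2 ∈ L n → (∀ w, ⟪V n w, z1⟫_ℂ = ⟪V n w, z2⟫_ℂ) →
      z1 = z2 := by
    intro n z1 z2 h1 h2 h3
    obtain ⟨w, hw⟩ := hVsurj n (z1 - z2) (Submodule.sub_mem _ h1 h2)
    have h4 : ⟪z1 - z2, z1 - z2⟫_ℂ = 0 := by
      nth_rewrite 1 [← hw]
      rw [inner_sub_right, h3, sub_self]
    exact sub_eq_zero.1 (inner_self_eq_zero.1 h4)
  refine ⟨d, V, Φ, fun n x => ?_, fun n y => ?_⟩
  · refine hsep n _ _ (hVmem n _) ⟨x, rfl⟩ fun w => ?_
    change ⟪V n w, V n (Φ x n)⟫_ℂ = ⟪V n w, E n x⟫_ℂ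
    rw [← hEadj, hVE, LinearIsometry.inner_map_map]
    have h1 : ⟪(lp.single 2 n w : ZP (fun n => d n + 1) 2), Φ x⟫_ℂ = ⟪w, Φ x n⟫_ℂ :=
      lp.inner_single_left n w (Φ x)
    rw [← h1]
    have h2 : Φ.symm (lp.single 2 n w) = V n w :=
      hsum.linearIsometryEquiv_symm_apply_single w
    rw [← h2, ← LinearIsometryEquiv.inner_map_map Φ, LinearIsometryEquiv.apply_symm_apply]
  · refine hsep n _ _ (hVmem n _) ⟨y, rfl⟩ fun w => ?_
    change ⟪V n w, _⟫_ℂ = ⟪V n w, E n y⟫_ℂ
    rw [← hEadj, hVE, LinearIsometry.inner_map_map, ContinuousLinearMap.adjoint_inner_right]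
    rfl

theorem qd : QdStmt := by
  intro H _ _ _ _ hinf T hT
  obtain ⟨b⟩ := Pool.Agent.H3.BDFP.exists_hilbertBasis_nat H hinf
  obtain ⟨P, hP0, hP, hfin, hPP, hPb, hne, hPT⟩ := exists_seq hT hinf b
  obtain ⟨T', hT', hTE⟩ := exists_pert hP0 hP hfin hPP hPT
  obtain ⟨d, V, Φ, hV, hV'⟩ := exists_decomp b hP0 hP hfin hPP hPb hne
  refine ⟨d, Φ, fun n => ContinuousLinearMap.adjoint (V n).toContinuousLinearMap ∘L T ∘L
    (V n).toContinuousLinearMap, T', ‖T‖, fun n => ?_, hT', fun x n => ?_⟩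
  · have h1 : ‖(V n).toContinuousLinearMap‖ ≤ 1 := (V n).norm_toContinuousLinearMap_le
    have h2 : ‖ContinuousLinearMap.adjoint (V n).toContinuousLinearMap‖ ≤ 1 := by
      rw [LinearIsometryEquiv.norm_map]
      exact h1
    refine (ContinuousLinearMap.opNorm_comp_le _ _).trans ?_
    refine (mul_le_of_le_one_left (norm_nonneg _) h2).trans ?_
    exact (ContinuousLinearMap.opNorm_comp_le _ _).trans
      (mul_le_of_le_one_right (norm_nonneg _) h1)
  · apply (V n).injective
    rw [hV]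
    have h1 : (P (n + 1) - P n) (T' x) = (P (n + 1) - P n) (T ((P (n + 1) - P n) x)) :=
      congrArg (fun A : H →L[ℂ] H => A x) (hTE n)
    rw [h1]
    change _ = V n (ContinuousLinearMap.adjoint (V n).toContinuousLinearMap
      (T (V n (Φ x n))))
    rw [hV', hV]

end

end Pool.Agent.H70.BDFP
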