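import Pool.Agent.H33.BDFP.Stmts

attribute [local instance] Pool.Agent.H33.BDFP.NV.instNACG Pool.Agent.H33.BDFP.NV.instModule
  Pool.Agent.H33.BDFP.NV.instNormedSpace Pool.Agent.H33.BDFP.NV.instFD
  Pool.Agent.H33.BDFP.NV.instComplete

/-! Module TR of the project BDFP: transfer of index zero to the weighted Hilbert space. -/

open scoped ENNReal NNReal Topology
open Filter

noncomputable section

namespace Pool.Agent.H70.BDFP

open Pool.Agent.H33.BDFP

section

variable {E : ℕ → Type} [∀ i, NormedAddCommGroup (E i)] [∀ i, NormedSpace ℂ (E i)]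
  {p : ℝ≥0∞} [Fact (1 ≤ p)]

lemma trunc_mem {S : Set ℕ} (x : lp E p) {i : ℕ} (h : i ∈ S) : trunc p S x i = x i := by
  classical
  have : trunc p S x i = (if i ∈ S then ContinuousLinearMap.id ℂ (E i) else 0) (x i) := rfl
  rw [this, if_pos h]
  rfl

lemma trunc_notMem {S : Set ℕ} (x : lp E p) {i : ℕ} (h : i ∉ S) : trunc p S x i = 0 := by
  classical
  have : trunc p S x i = (if i ∈ S then ContinuousLinearMap.id ℂ (E i) else 0) (x i) := rfl
  rw [this, if_neg h]
  rfl

lemma norm_trunc_le (S : Set ℕ) : ‖(trunc p S : lp E p →L[ℂ] lp E p)‖ ≤ 1 :=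
  lp.norm_mapCLM_le p _ _ _

lemma trunc_add (N : ℕ) (x : lp E p) :
    trunc p {i | i < N} x + trunc p {i | N ≤ i} x = x := by
  refine lp.ext (funext fun i => ?_)
  rw [lp.coeFn_add, Pi.add_apply]
  by_cases h : i < N
  · rw [trunc_mem x (show i ∈ {i | i < N} from h),
      trunc_notMem x (show i ∉ {i | N ≤ i} from not_le.2 h), add_zero]
  · rw [trunc_notMem x (show i ∉ {i | i < N} from h),
      trunc_mem x (show i ∈ {i | N ≤ i} from not_lt.1 h), zero_add]

lemma trunc_idem (N : ℕ) (x : lp E p) :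
    trunc p {i | i < N} (trunc p {i | i < N} x) = trunc p {i | i < N} x := by
  refine lp.ext (funext fun i => ?_)
  by_cases h : i < N
  · rw [trunc_mem _ (show i ∈ {i | i < N} from h)]
  · rw [trunc_notMem _ (show i ∉ {i | i < N} from h), trunc_notMem _ (show i ∉ {i | i < N} from h)]

/-- the finitely supported part of a family -/
def fsum (N : ℕ) (c : ℕ → ℂ) (q : ℝ≥0∞) [Fact (1 ≤ q)] : lp E q →L[ℂ] lp E p :=
  ∑ i ∈ Finset.range N, (lp.singleContinuousLinearMap ℂ E p i) ∘L (c i • lp.evalCLM ℂ E q i)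

lemma fsum_apply (N : ℕ) (c : ℕ → ℂ) (q : ℝ≥0∞) [Fact (1 ≤ q)] (x : lp E q) (n : ℕ) :
    (fsum N c q x : lp E p) n = if n < N then c n • x n else 0 := by
  unfold fsum
  rw [_root_.sum_apply, lp.coeFn_sum, Finset.sum_apply]
  have h1 : ∀ i, ((lp.singleContinuousLinearMap ℂ E p i ∘L (c i • lp.evalCLM ℂ E q i)) x) n =
      if n = i then c n • x n else 0 := by
    intro i
    change lp.single p i (c i • x i) n = _
    by_cases h : n = i
    · subst h
      rw [lp.single_apply_self, if_pos rfl]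
    · rw [lp.single_apply_ne _ _ _ h, if_neg h]
  simp only [h1]
  rw [Finset.sum_ite_eq]
  simp only [Finset.mem_range]

lemma isCompact_fsum [∀ i, FiniteDimensional ℂ (E i)] (N : ℕ) (c : ℕ → ℂ) (q : ℝ≥0∞)
    [Fact (1 ≤ q)] : IsCompactOperator (⇑(fsum N c q : lp E q →L[ℂ] lp E p)) := by
  classical
  unfold fsum
  induction (Finset.range N) using Finset.induction_on with
  | empty =>
    rw [Finset.sum_empty]
    exact isCompactOperator_zero
  | insert a s ha ih =>
    rw [Finset.sum_insert ha]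
    have h1 : IsCompactOperator (⇑((lp.singleContinuousLinearMap ℂ E p a) ∘L
        (c a • lp.evalCLM ℂ E q a))) := by
      have : FiniteDimensional ℂ (E a) := inferInstance
      have hp : ProperSpace (E a) := FiniteDimensional.proper ℂ (E a)
      have h2 : IsCompactOperator (⇑(c a • lp.evalCLM ℂ E q a)) :=
        isCompactOperator_of_locallyCompactSpace_dom (c a • lp.evalCLM ℂ E q a)
      exact h2.clm_comp (lp.singleContinuousLinearMap ℂ E p a)
    exact h1.add ih

lemma trunc_eq_fsum (N : ℕ) : (trunc p {i | i < N} : lp E p →L[ℂ] lp E p) =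
    fsum N (fun _ => 1) p := by
  refine ContinuousLinearMap.ext fun x => lp.ext (funext fun i => ?_)
  rw [fsum_apply]
  by_cases h : i < N
  · rw [trunc_mem _ (show i ∈ {i | i < N} from h), if_pos h, one_smul]
  · rw [trunc_notMem _ (show i ∉ {i | i < N} from h), if_neg h]

end

section

variable {r : ℕ → ℕ} {p : ℝ≥0∞} [Fact (1 ≤ p)]

lemma D_trunc {s : ℕ → ℝ} {D : ZP r p →L[ℂ] ZP r 2} (hD : IsDiag s D) (S : Set ℕ)
    (x : ZP r p) : D (trunc p S x) = trunc 2 S (D x) := by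
  refine lp.ext (funext fun i => ?_)
  rw [hD.2]
  by_cases h : i ∈ S
  · rw [trunc_mem _ h, trunc_mem _ h, hD.2]
  · rw [trunc_notMem _ h, trunc_notMem _ h, smul_zero]

/-- the inverse of `D` on finitely many coordinates -/
def dinv (s : ℕ → ℝ) (N : ℕ) : ZP r 2 →L[ℂ] ZP r p := fsum N (fun i => ((s i : ℂ))⁻¹) 2

lemma D_dinv {s : ℕ → ℝ} {D : ZP r p →L[ℂ] ZP r 2} (hD : IsDiag s D) (N : ℕ) (y : ZP r 2) :
    D (dinv s N y) = trunc 2 {i | i < N} y := by
  refine lp.ext (funext fun i => ?_)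
  rw [hD.2, dinv, fsum_apply]
  have hs : (s i : ℂ) ≠ 0 := by exact_mod_cast (hD.1 i).ne'
  by_cases h : i < N
  · rw [trunc_mem _ (show i ∈ {i | i < N} from h), if_pos h, smul_smul, mul_inv_cancel₀ hs,
      one_smul]
  · rw [trunc_notMem _ (show i ∉ {i | i < N} from h), if_neg h, smul_zero]

lemma dinv_D {s : ℕ → ℝ} {D : ZP r p →L[ℂ] ZP r 2} (hD : IsDiag s D) (N : ℕ) (x : ZP r p) :
    (dinv s N (D x) : ZP r p) = trunc p {i | i < N} x := by
  refine lp.ext (funext fun i => ?_)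
  rw [dinv, fsum_apply, hD.2]
  have hs : (s i : ℂ) ≠ 0 := by exact_mod_cast (hD.1 i).ne'
  by_cases h : i < N
  · rw [trunc_mem _ (show i ∈ {i | i < N} from h), if_pos h, smul_smul, inv_mul_cancel₀ hs,
      one_smul]
  · rw [trunc_notMem _ (show i ∉ {i | i < N} from h), if_neg h]

lemma D_inj {s : ℕ → ℝ} {D : ZP r p →L[ℂ] ZP r 2} (hD : IsDiag s D) {x : ZP r p}
    (h : D x = 0) : x = 0 := by
  refine lp.ext (funext fun i => ?_)
  have h1 : D x i = 0 := by rw [h]; rfl
  rw [hD.2] at h1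
  have hs : (s i : ℂ) ≠ 0 := by exact_mod_cast (hD.1 i).ne'
  rcases smul_eq_zero.1 h1 with h2 | h2
  · exact absurd h2 hs
  · exact h2

end

theorem isUnit_one_add {X : Type} [NormedAddCommGroup X] [NormedSpace ℂ X] [CompleteSpace X]
    {L : X →L[ℂ] X} (h : ‖L‖ < 1) : IsUnit (1 + L) := by
  have h1 : 1 + L = 1 - (-L) := by rw [sub_neg_eq_add]
  rw [h1]
  exact isUnit_one_sub_of_norm_lt_one (by rwa [norm_neg])

theorem tr (hcut : CutStmt) : TrStmt := by
  intro p _ hp2 hpt r s D F G F₂ G₂ hD hF2 hG2 _hGF _hFG hGF2 hFG2 h0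
  obtain ⟨U, hU⟩ := h0
  have hp1 : 1 < p := lt_trans (by norm_num) hp2
  have ht2 : (2 : ℝ≥0∞) ≠ ∞ := by norm_num
  have h12 : (1 : ℝ≥0∞) < 2 := by norm_num
  have cutp := fun T : ZP r p →L[ℂ] ZP r p =>
    (hcut p p hp1 hpt hpt (fun n => EuclideanSpace ℂ (Fin (r n)))
      (fun n => EuclideanSpace ℂ (Fin (r n))) T).2.2
  have cut2 := fun T : ZP r 2 →L[ℂ] ZP r 2 =>
    (hcut 2 2 h12 ht2 ht2 (fun n => EuclideanSpace ℂ (Fin (r n)))
      (fun n => EuclideanSpace ℂ (Fin (r n))) T).2.2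
  -- the compact perturbation
  set Kc : ZP r p →L[ℂ] ZP r p := F - (U : ZP r p →L[ℂ] ZP r p) with hKc
  have hKcc : IsCompactOperator (⇑Kc) := by
    have h1 := hU.neg
    have h2 : (-⇑((U : ZP r p →L[ℂ] ZP r p) - F) : ZP r p → ZP r p) = ⇑Kc := by
      funext x
      simp [hKc]
    rw [h2] at h1
    exact h1
  have hunit : ∀ᶠ N : ℕ in atTop, IsUnit (F - trunc p {i | i < N} ∘L Kc ∘L trunc p {i | i < N}) := by
    have hlim : Tendsto (fun N : ℕ => F - trunc p {i | i < N} ∘L Kc ∘L trunc p {i | i < N}) atTop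
        (𝓝 (U : ZP r p →L[ℂ] ZP r p)) := by
      rw [tendsto_iff_norm_sub_tendsto_zero]
      have hsum := (cutp Kc hKcc).1.add (cutp Kc hKcc).2
      rw [add_zero] at hsum
      refine squeeze_zero (fun _ => norm_nonneg _) (fun N => ?_) hsum
      have e1 : F - trunc p {i | i < N} ∘L Kc ∘L trunc p {i | i < N} - (U : ZP r p →L[ℂ] ZP r p) =
          trunc p {i | N ≤ i} ∘L Kc + trunc p {i | i < N} ∘L (Kc ∘L trunc p {i | N ≤ i}) := by
        refine ContinuousLinearMap.ext fun x => ?_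
        have h1 : F x = Kc x + (U : ZP r p →L[ℂ] ZP r p) x := by simp [hKc]
        have h2 := trunc_add N (Kc x)
        have h3 : Kc x = Kc (trunc p {i | i < N} x) + Kc (trunc p {i | N ≤ i} x) := by
          rw [← map_add, trunc_add]
        change F x - trunc p {i | i < N} (Kc (trunc p {i | i < N} x)) -
          (U : ZP r p →L[ℂ] ZP r p) x = trunc p {i | N ≤ i} (Kc x) +
            trunc p {i | i < N} (Kc (trunc p {i | N ≤ i} x))
        have h4 : trunc p {i | i < N} (Kc x) = trunc p {i | i < N} (Kc (trunc p {i | i < N} x)) +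
            trunc p {i | i < N} (Kc (trunc p {i | N ≤ i} x)) := by
          rw [← map_add, ← h3]
        rw [h1]
        nth_rewrite 1 [← h2]
        rw [h4]
        abel
      rw [e1]
      refine (norm_add_le _ _).trans (add_le_add le_rfl ?_)
      refine (ContinuousLinearMap.opNorm_comp_le _ _).trans ?_
      exact mul_le_of_le_one_left (norm_nonneg _) (norm_trunc_le _)
    exact hlim.eventually (Units.isOpen.mem_nhds U.isUnit)
  obtain ⟨N, V, hV⟩ := hunit.exists
  set K0 : ZP r p →L[ℂ] ZP r p := trunc p {i | i < N} ∘L Kc ∘L trunc p {i | i < N} with hK0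
  set K02 : ZP r 2 →L[ℂ] ZP r 2 := D ∘L K0 ∘L dinv s N with hK02
  have hK02c : IsCompactOperator (⇑K02) := by
    have h1 : IsCompactOperator (⇑(dinv s N : ZP r 2 →L[ℂ] ZP r p)) := isCompact_fsum N _ 2
    exact h1.clm_comp (D ∘L K0)
  have hK0P : ∀ x, K0 (trunc p {i | i < N} x) = K0 x := by
    intro x
    change trunc p {i | i < N} (Kc (trunc p {i | i < N} (trunc p {i | i < N} x))) = _
    rw [trunc_idem]
    rfl
  set F' : ZP r 2 →L[ℂ] ZP r 2 := F₂ - K02 with hF'
  have hVx : ∀ x, (V : ZP r p →L[ℂ] ZP r p) x = F x - K0 x := by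
    intro x
    rw [hV]
    rfl
  have hF'D : ∀ x, F' (D x) = D ((V : ZP r p →L[ℂ] ZP r p) x) := by
    intro x
    have h1 : F₂ (D x) = D (F x) := by
      have := congrArg (fun T : ZP r p →L[ℂ] ZP r 2 => T x) hF2
      exact this
    change F₂ (D x) - D (K0 (dinv s N (D x))) = _
    rw [h1, dinv_D hD, hK0P, hVx, map_sub]
  have hVinv : ∀ x, (V : ZP r p →L[ℂ] ZP r p) (((V⁻¹ : (ZP r p →L[ℂ] ZP r p)ˣ) :
      ZP r p →L[ℂ] ZP r p) x) = x := by
    intro x
    have := congrArg (fun T : ZP r p →L[ℂ] ZP r p => T x) V.mul_inv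
    exact this
  have hVinv' : ∀ x, ((V⁻¹ : (ZP r p →L[ℂ] ZP r p)ˣ) : ZP r p →L[ℂ] ZP r p)
      ((V : ZP r p →L[ℂ] ZP r p) x) = x := by
    intro x
    have := congrArg (fun T : ZP r p →L[ℂ] ZP r p => T x) V.inv_mul
    exact this
  -- surjectivity
  have hsurj : Function.Surjective F' := by
    set L : ZP r 2 →L[ℂ] ZP r 2 := F' ∘L G₂ - 1 with hL
    have hLc : IsCompactOperator (⇑L) := by
      have h1 := hFG2.sub (hK02c.comp_clm G₂)
      have h2 : (⇑(F₂ ∘L G₂ - ContinuousLinearMap.id ℂ (ZP r 2)) - ⇑K02 ∘ ⇑G₂ :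
          ZP r 2 → ZP r 2) = ⇑L := by
        funext x
        simp only [hL, hF', Pi.sub_apply, ContinuousLinearMap.sub_apply,
          ContinuousLinearMap.comp_apply, Function.comp_apply, ContinuousLinearMap.id_apply,
          ContinuousLinearMap.one_apply]
        abel
      rw [h2] at h1
      exact h1
    have h3 := (cut2 L hLc).1
    obtain ⟨j, hj⟩ := (h3.eventually (Iio_mem_nhds one_pos)).exists
    obtain ⟨W, hW⟩ := isUnit_one_add hj
    intro y
    set y' := ((W⁻¹ : (ZP r 2 →L[ℂ] ZP r 2)ˣ) : ZP r 2 →L[ℂ] ZP r 2) y with hy'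
    have hWy : (W : ZP r 2 →L[ℂ] ZP r 2) y' = y := by
      have := congrArg (fun T : ZP r 2 →L[ℂ] ZP r 2 => T y) W.mul_inv
      exact this
    have e1 : y' + trunc 2 {i | j ≤ i} (L y') = y := by
      rw [hW] at hWy
      exact hWy
    have e2 : F' (G₂ y') = y' + L y' := by
      simp [hL]
    have e3 : F' (G₂ y') = y + trunc 2 {i | i < j} (L y') := by
      have h5 := trunc_add j (L y')
      calc F' (G₂ y') = y' + L y' := e2
        _ = y' + (trunc 2 {i | i < j} (L y') + trunc 2 {i | j ≤ i} (L y')) := by rw [h5]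
        _ = (y' + trunc 2 {i | j ≤ i} (L y')) + trunc 2 {i | i < j} (L y') := by abel
        _ = y + trunc 2 {i | i < j} (L y') := by rw [e1]
    refine ⟨G₂ y' - D (((V⁻¹ : (ZP r p →L[ℂ] ZP r p)ˣ) : ZP r p →L[ℂ] ZP r p)
      (dinv s j (L y'))), ?_⟩
    rw [map_sub, hF'D, hVinv, D_dinv hD, e3]
    abel
  -- injectivity
  have hinj : ∀ y, F' y = 0 → y = 0 := by
    intro y hy
    set K2 : ZP r 2 →L[ℂ] ZP r 2 := G₂ ∘L F' - 1 with hK2
    set K1 : ZP r p →L[ℂ] ZP r p := G ∘L (V : ZP r p →L[ℂ] ZP r p) - 1 with hK1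
    have hK2c : IsCompactOperator (⇑K2) := by
      have h1 := hGF2.sub (hK02c.clm_comp G₂)
      have h2 : (⇑(G₂ ∘L F₂ - ContinuousLinearMap.id ℂ (ZP r 2)) - ⇑(G₂ ∘L K02) :
          ZP r 2 → ZP r 2) = ⇑K2 := by
        funext x
        simp only [hK2, hF', Pi.sub_apply, ContinuousLinearMap.sub_apply,
          ContinuousLinearMap.comp_apply, ContinuousLinearMap.id_apply,
          ContinuousLinearMap.one_apply, map_sub]
        abel
      have h3 : (⇑(G₂ ∘L F₂ - ContinuousLinearMap.id ℂ (ZP r 2)) - (⇑G₂ ∘ ⇑K02) :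
          ZP r 2 → ZP r 2) = ⇑K2 := h2
      rw [h3] at h1
      exact h1
    have hK1c : IsCompactOperator (⇑K1) := by
      have hc : IsCompactOperator (⇑K0) := by
        have h1 : IsCompactOperator (⇑(trunc p {i | i < N} : ZP r p →L[ℂ] ZP r p)) := by
          rw [trunc_eq_fsum]
          exact isCompact_fsum N _ p
        exact h1.clm_comp (trunc p {i | i < N} ∘L Kc)
      have h1 := _hGF.sub (hc.clm_comp G)
      have h3 : (⇑(G ∘L F - ContinuousLinearMap.id ℂ (ZP r p)) - (⇑G ∘ ⇑K0) :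
          ZP r p → ZP r p) = ⇑K1 := by
        funext x
        simp only [hK1, Pi.sub_apply, ContinuousLinearMap.sub_apply, Function.comp_apply,
          ContinuousLinearMap.comp_apply, ContinuousLinearMap.id_apply,
          ContinuousLinearMap.one_apply, hVx, map_sub]
        abel
      rw [h3] at h1
      exact h1
    have hK2D : ∀ x, K2 (D x) = D (K1 x) := by
      intro x
      have h1 : G₂ (D ((V : ZP r p →L[ℂ] ZP r p) x)) = D (G ((V : ZP r p →L[ℂ] ZP r p) x)) := by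
        have := congrArg (fun T : ZP r p →L[ℂ] ZP r 2 => T ((V : ZP r p →L[ℂ] ZP r p) x)) hG2
        exact this
      change G₂ (F' (D x)) - D x = D (G ((V : ZP r p →L[ℂ] ZP r p) x) - x)
      rw [hF'D, h1, map_sub]
    have h3 := (cut2 K2 hK2c).2
    have h4 := (cutp K1 hK1c).2
    obtain ⟨j, hj, hj'⟩ := ((h3.eventually (Iio_mem_nhds one_pos)).and
      (h4.eventually (Iio_mem_nhds one_pos))).exists
    obtain ⟨W2, hW2⟩ := isUnit_one_add hj
    obtain ⟨W1, hW1⟩ := isUnit_one_add hj'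
    set x := ((W1⁻¹ : (ZP r p →L[ℂ] ZP r p)ˣ) : ZP r p →L[ℂ] ZP r p) (-(K1 (dinv s j y)))
      with hx
    have hW1x : x + K1 (trunc p {i | j ≤ i} x) = -(K1 (dinv s j y)) := by
      have h5 : (W1 : ZP r p →L[ℂ] ZP r p) x = -(K1 (dinv s j y)) := by
        have := congrArg (fun T : ZP r p →L[ℂ] ZP r p => T (-(K1 (dinv s j y)))) W1.mul_inv
        exact this
      rw [hW1] at h5
      exact h5
    have e1 : (W2 : ZP r 2 →L[ℂ] ZP r 2) y = -(D (K1 (dinv s j y))) := by
      rw [hW2]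
      change y + K2 (trunc 2 {i | j ≤ i} y) = _
      have h5 : K2 y = - y := by
        simp [hK2, hy]
      have h6 : K2 y = K2 (trunc 2 {i | i < j} y) + K2 (trunc 2 {i | j ≤ i} y) := by
        rw [← map_add, trunc_add]
      have h7 : K2 (trunc 2 {i | i < j} y) = D (K1 (dinv s j y)) := by
        rw [← D_dinv hD, hK2D]
      rw [h5, h7] at h6
      have h8 : K2 (trunc 2 {i | j ≤ i} y) = - y - D (K1 (dinv s j y)) := by
        rw [h6]
        abel
      rw [h8]
      abel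
    have e2 : (W2 : ZP r 2 →L[ℂ] ZP r 2) (D x) = -(D (K1 (dinv s j y))) := by
      rw [hW2]
      change D x + K2 (trunc 2 {i | j ≤ i} (D x)) = _
      rw [← D_trunc hD, hK2D, ← map_add, hW1x, map_neg]
    have e3 : y = D x := by
      have h5 : (W2 : ZP r 2 →L[ℂ] ZP r 2) (y - D x) = 0 := by
        rw [map_sub, e1, e2, sub_self]
      have h6 : ((W2⁻¹ : (ZP r 2 →L[ℂ] ZP r 2)ˣ) : ZP r 2 →L[ℂ] ZP r 2)
          ((W2 : ZP r 2 →L[ℂ] ZP r 2) (y - D x)) = y - D x := by
        have := congrArg (fun T : ZP r 2 →L[ℂ] ZP r 2 => T (y - D x)) W2.inv_mul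
        exact this
      rw [h5, map_zero] at h6
      exact sub_eq_zero.1 h6.symm
    have e4 : D ((V : ZP r p →L[ℂ] ZP r p) x) = 0 := by
      rw [← hF'D, ← e3, hy]
    have e5 := D_inj hD e4
    have e6 : x = 0 := by
      rw [← hVinv' x, e5, map_zero]
    rw [e3, e6, map_zero]
  have hker : LinearMap.ker F'.toLinearMap = ⊥ := by
    rw [LinearMap.ker_eq_bot']
    exact hinj
  have hrange : LinearMap.range F'.toLinearMap = ⊤ := LinearMap.range_eq_top.2 hsurj
  let e := ContinuousLinearEquiv.ofBijective F' hker hrange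
  refine ⟨(ContinuousLinearEquiv.unitsEquiv ℂ (ZP r 2)).symm e, ?_⟩
  have he : (((ContinuousLinearEquiv.unitsEquiv ℂ (ZP r 2)).symm e :
      (ZP r 2 →L[ℂ] ZP r 2)ˣ) : ZP r 2 →L[ℂ] ZP r 2) = F' := by
    refine ContinuousLinearMap.ext fun x => rfl
  change IsCompactOperator _
  rw [he]
  have h1 := hK02c.neg
  have h2 : (-⇑K02 : ZP r 2 → ZP r 2) = ⇑(F' - F₂) := by
    funext x
    simp [hF']
  rw [h2] at h1
  exact h1

end Pool.Agent.H70.BDFP
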